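import Mathlib

/-!
# The combinatorial core for four blocks

`E` is a pseudometric on four points (orders of the metric coefficients at a place, shifted and with
the sign changed), `Y` are the leading coefficients of the inverses, `top` are the leading terms of
the Einstein equations, `c1 .. c2'` say that in the cut identities the term of least order is not
unique, `vol` is the constancy of the volume. All of this together is impossible.
-/

namespace Pool.Agent.H43.F4

/-- four different elements -/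
def Dis (a b c d : Fin 4) : Prop := a ≠ b ∧ a ≠ c ∧ a ≠ d ∧ b ≠ c ∧ b ≠ d ∧ c ≠ d

section

set_option linter.unusedSectionVars false

variable {M : Type*} [Field M] [CharZero M]

open Classical in
/-- the leading coefficient of `x a c * (y a b * y b c)` in order `-m` -/
noncomputable def tc (E : Fin 4 → Fin 4 → ℤ) (Y : Fin 4 → Fin 4 → M) (a b c : Fin 4) : M :=
  if E a c = E a b + E b c then Y a b * Y b c / Y a c else 0

open Classical in
/-- the leading coefficient of `y a b` in order `-m` -/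
noncomputable def yc (E : Fin 4 → Fin 4 → ℤ) (Y : Fin 4 → Fin 4 → M) (a b : Fin 4) : M :=
  if E a b = 0 then Y a b else 0

theorem tc_pos {E : Fin 4 → Fin 4 → ℤ} {Y : Fin 4 → Fin 4 → M} {a b c : Fin 4}
    (h : E a c = E a b + E b c) : tc E Y a b c = Y a b * Y b c / Y a c := if_pos h

theorem tc_neg {E : Fin 4 → Fin 4 → ℤ} {Y : Fin 4 → Fin 4 → M} {a b c : Fin 4}
    (h : E a c ≠ E a b + E b c) : tc E Y a b c = 0 := if_neg h

theorem yc_pos {E : Fin 4 → Fin 4 → ℤ} {Y : Fin 4 → Fin 4 → M} {a b : Fin 4}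
    (h : E a b = 0) : yc E Y a b = Y a b := if_pos h

theorem yc_neg {E : Fin 4 → Fin 4 → ℤ} {Y : Fin 4 → Fin 4 → M} {a b : Fin 4}
    (h : E a b ≠ 0) : yc E Y a b = 0 := if_neg h

/-- the data at a place -/
structure Data (n : Fin 4 → ℕ) (m : ℤ) (E : Fin 4 → Fin 4 → ℤ) (Y : Fin 4 → Fin 4 → M) :
    Prop where
  hn : ∀ i, 0 < n i
  hm : 0 < m
  Es : ∀ a b, E a b = E b a
  Ys : ∀ a b, Y a b = Y b a
  Y0 : ∀ a b, a ≠ b → Y a b ≠ 0
  E0 : ∀ a b, a ≠ b → 0 ≤ E a b
  tri : ∀ a b c, a ≠ b → a ≠ c → b ≠ c → E a c ≤ E a b + E b c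
  att : (∃ a b, a ≠ b ∧ E a b = 0) ∨
    ∃ a b c, a ≠ b ∧ a ≠ c ∧ b ≠ c ∧ E a c = E a b + E b c
  vol : ∀ a b c d, Dis a b c d → (n a * n b : ℤ) * (E a b - m) + (n a * n c : ℤ) * (E a c - m) +
    (n a * n d : ℤ) * (E a d - m) + (n b * n c : ℤ) * (E b c - m) +
    (n b * n d : ℤ) * (E b d - m) + (n c * n d : ℤ) * (E c d - m) = 0
  top : ∀ a b c d, Dis a b c d → 2 * ((n a : M) + n b + n c + n d) * yc E Y a b +
    n c * (tc E Y a c b - tc E Y a b c - tc E Y b a c) +
    n d * (tc E Y a d b - tc E Y a b d - tc E Y b a d) = 0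
  c1 : ∀ a b c d, Dis a b c d → ¬ (m < E a b ∧ m < E a c ∧ m < E a d ∧
    m < E a b + E a c - E b c ∧ m < E a b + E a d - E b d ∧ m < E a c + E a d - E c d)
  c1' : ∀ a b c d, Dis a b c d → ¬ (E a b < m ∧ E a b < E a c ∧ E a b < E a d ∧
    E a b < E a b + E a c - E b c ∧ E a b < E a b + E a d - E b d ∧
    E a b < E a c + E a d - E c d)
  c2 : ∀ a b c d, Dis a b c d → ¬ (m < E a c ∧ m < E a d ∧ m < E b c ∧ m < E b d ∧
    m < E a c + E b c - E a b ∧ m < E a d + E b d - E a b ∧ m < E a c + E a d - E c d ∧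
    m < E b c + E b d - E c d)
  c2' : ∀ a b c d, Dis a b c d → ¬ (E b c < m ∧ E b c < E a c ∧ E b c < E a d ∧ E b c < E b d ∧
    E b c < E a c + E b c - E a b ∧ E b c < E a d + E b d - E a b ∧
    E b c < E a c + E a d - E c d ∧ E b c < E b c + E b d - E c d)

theorem exists_cd : ∀ a b : Fin 4, a ≠ b → ∃ c d, Dis a b c d := by
  unfold Dis
  decide

theorem exists_d : ∀ a b c : Fin 4, a ≠ b → a ≠ c → b ≠ c → ∃ d, Dis a b c d := by
  unfold Dis
  decide

/-- the final computation for a zero pair -/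
theorem alg_false (a b c d : ℕ) (ha : 0 < a) (hb : 0 < b) (hc : 0 < c) (hd : 0 < d) (u v : M)
    (hu : u ≠ 0) (hv : v ≠ 0)
    (h1 : 2 * ((a : M) + b + c + d) = c * (u + u⁻¹) + d * (v + v⁻¹))
    (h2 : (c : M) * (u - u⁻¹) + d * (v - v⁻¹) = 0) (h3 : (a : M) * v + b * u = 0) : False := by
  have e1 : (a : M) + b + c + d = c * u + d * v := by
    have h4 : 2 * ((a : M) + b + c + d) = 2 * (c * u + d * v) := by linear_combination h1 - h2
    exact mul_left_cancel₀ two_ne_zero h4
  have e2 : (a : M) + b + c + d = c * u⁻¹ + d * v⁻¹ := by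
    have h4 : 2 * ((a : M) + b + c + d) = 2 * (c * u⁻¹ + d * v⁻¹) := by
      linear_combination h1 + h2
    exact mul_left_cancel₀ two_ne_zero h4
  have e3 : ((a : M) + b + c + d) * (u * v) = c * v + d * u := by
    rw [e2]
    field_simp
  -- multiply the two relations
  have e4 : ((a : M) + b + c + d) ^ 2 * (u * v) * (a * b) =
      ((c : M) ^ 2 + d ^ 2) * (a * b) * (u * v) - c * d * (a ^ 2 + b ^ 2) * (u * v) := by
    have h5 : ((a : M) + b + c + d) ^ 2 * (u * v) = (c * u + d * v) * (c * v + d * u) := by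
      rw [← e3, ← e1]; ring
    rw [h5]
    linear_combination ((c : M) * d * (a * u + b * v)) * h3
  have huv : u * v ≠ 0 := mul_ne_zero hu hv
  have e5 : ((a : M) + b + c + d) ^ 2 * (a * b) + c * d * (a ^ 2 + b ^ 2) =
      ((c : M) ^ 2 + d ^ 2) * (a * b) := by
    have h6 : (((a : M) + b + c + d) ^ 2 * (a * b) + c * d * (a ^ 2 + b ^ 2)) * (u * v) =
        (((c : M) ^ 2 + d ^ 2) * (a * b)) * (u * v) := by
      linear_combination e4
    exact mul_right_cancel₀ huv h6
  have e6 : (a + b + c + d) ^ 2 * (a * b) + c * d * (a ^ 2 + b ^ 2) =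
      (c ^ 2 + d ^ 2) * (a * b) := by
    exact_mod_cast e5
  have h7 : c ^ 2 + d ^ 2 < (a + b + c + d) ^ 2 := by nlinarith
  have h8 : 0 < a * b := Nat.mul_pos ha hb
  nlinarith [Nat.zero_le (c * d * (a ^ 2 + b ^ 2))]

/-- the case where both ratios are signs -/
theorem alg_false' (a b c d : ℕ) (ha : 0 < a) (u v : M) (hu : u ^ 2 = 1) (hv : v ^ 2 = 1)
    (h1 : 2 * ((a : M) + b + c + d) = c * (u + u⁻¹) + d * (v + v⁻¹)) : False := by
  have hu' : u = 1 ∨ u = -1 := mul_self_eq_one_iff.1 (by rw [← sq]; exact hu)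
  have hv' : v = 1 ∨ v = -1 := mul_self_eq_one_iff.1 (by rw [← sq]; exact hv)
  have key : ∀ s r : ℤ, (s = 1 ∨ s = -1) → (r = 1 ∨ r = -1) →
      2 * ((a : M) + b + c + d) = c * (2 * s) + d * (2 * r) → False := by
    intro s r hs hr h
    have h2 : 2 * ((a : ℤ) + b + c + d) = c * (2 * s) + d * (2 * r) := by exact_mod_cast h
    rcases hs with rfl | rfl <;> rcases hr with rfl | rfl <;> omega
  rcases hu' with rfl | rfl <;> rcases hv' with rfl | rfl
  · exact key 1 1 (Or.inl rfl) (Or.inl rfl) (by rw [h1]; push_cast; ring)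
  · exact key 1 (-1) (Or.inl rfl) (Or.inr rfl) (by rw [h1]; push_cast; ring)
  · exact key (-1) 1 (Or.inr rfl) (Or.inl rfl) (by rw [h1]; push_cast; ring)
  · exact key (-1) (-1) (Or.inr rfl) (Or.inr rfl) (by rw [h1]; push_cast; ring)

variable {n : Fin 4 → ℕ} {m : ℤ} {E : Fin 4 → Fin 4 → ℤ} {Y : Fin 4 → Fin 4 → M}
  {a b c d : Fin 4}

theorem Dis.swap (D : Dis a b c d) : Dis a b d c := by
  unfold Dis at *
  tauto

/-- the equation of a zero pair -/
theorem zp_ab (h : Data n m E Y) (D : Dis a b c d) (h0 : E a b = 0) (hp : 0 < E a c)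
    (hq : 0 < E a d) (e1 : E b c = E a c) (e2 : E b d = E a d) :
    2 * ((n a : M) + n b + n c + n d) = n c * (Y b c / Y a c + (Y b c / Y a c)⁻¹) +
      n d * (Y b d / Y a d + (Y b d / Y a d)⁻¹) := by
  have Dc := D
  obtain ⟨dab, dac, dad, dbc, dbd, dcd⟩ := D
  have h1 := h.top a b c d Dc
  have s1 := h.Es c b
  have s2 := h.Es d b
  have s3 := h.Es b a
  rw [yc_pos h0, tc_neg (a := a) (b := c) (c := b) (by omega),
    tc_pos (a := a) (b := b) (c := c) (by omega), tc_pos (a := b) (b := a) (c := c) (by omega),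
    tc_neg (a := a) (b := d) (c := b) (by omega), tc_pos (a := a) (b := b) (c := d) (by omega),
    tc_pos (a := b) (b := a) (c := d) (by omega), h.Ys b a] at h1
  have y1 := h.Y0 a b dab
  have y2 := h.Y0 a c dac
  have y3 := h.Y0 b c dbc
  have y4 := h.Y0 a d dad
  have y5 := h.Y0 b d dbd
  refine mul_left_cancel₀ y1 ?_
  rw [inv_div, inv_div]
  linear_combination h1

/-- the equation of a pair next to a zero pair -/
theorem zp_ac (h : Data n m E Y) (D : Dis a b c d) (h0 : E a b = 0) (hp : 0 < E a c)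
    (e1 : E b c = E a c) :
    n b * (Y a b * (Y b c / Y a c - (Y b c / Y a c)⁻¹)) +
      n d * (tc E Y a d c - tc E Y a c d - tc E Y c a d) = 0 := by
  obtain ⟨dab, dac, dad, dbc, dbd, dcd⟩ := D
  have h1 := h.top a c b d ⟨dac, dab, dad, dbc.symm, dcd, dbd⟩
  have s1 := h.Es c b
  have s3 := h.Es b a
  have s4 := h.Es c a
  rw [yc_neg (a := a) (b := c) (by omega), tc_pos (a := a) (b := b) (c := c) (by omega),
    tc_neg (a := a) (b := c) (c := b) (by omega), tc_pos (a := c) (b := a) (c := b) (by omega),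
    h.Ys c a, h.Ys c b] at h1
  rw [inv_div]
  linear_combination h1

/-- a zero pair and two points at different distances -/
theorem zp_tight (h : Data n m E Y) (D : Dis a b c d) (h0 : E a b = 0) (hp : 0 < E a c)
    (hr : 0 < E c d) (e1 : E b c = E a c) (e2 : E b d = E a d) (e3 : E a d = E a c + E c d) :
    False := by
  have Dc := D
  obtain ⟨dab, dac, dad, dbc, dbd, dcd⟩ := D
  have h1 := zp_ab h Dc h0 hp (by omega) e1 e2
  have h2 := zp_ac h Dc h0 hp e1
  have h3 := zp_ac h Dc.swap h0 (by omega) e2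
  have Db : Dis b a c d := ⟨dab.symm, dbc, dbd, dac, dad, dcd⟩
  have s1 := h.Es c b
  have s2 := h.Es d b
  have s3 := h.Es b a
  have s4 := h.Es c a
  have s5 := h.Es d a
  have s6 := h.Es d c
  have h4 := zp_ac h Db (by omega) (by omega) (by omega)
  rw [tc_neg (a := a) (b := d) (c := c) (by omega), tc_pos (a := a) (b := c) (c := d) e3,
    tc_neg (a := c) (b := a) (c := d) (by omega)] at h2
  rw [tc_pos (a := a) (b := c) (c := d) e3, tc_neg (a := a) (b := d) (c := c) (by omega),
    tc_neg (a := d) (b := a) (c := c) (by omega)] at h3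
  rw [tc_neg (a := b) (b := d) (c := c) (by omega),
    tc_pos (a := b) (b := c) (c := d) (by omega), tc_neg (a := c) (b := b) (c := d) (by omega),
    h.Ys b a] at h4
  have y1 := h.Y0 a b dab
  have y2 := h.Y0 a c dac
  have y3 := h.Y0 b c dbc
  have y4 := h.Y0 a d dad
  have y5 := h.Y0 b d dbd
  have y6 := h.Y0 c d dcd
  have nb : (n b : M) ≠ 0 := Nat.cast_ne_zero.2 (h.hn b).ne'
  have nd : (n d : M) ≠ 0 := Nat.cast_ne_zero.2 (h.hn d).ne'
  refine alg_false (n a) (n b) (n c) (n d) (h.hn a) (h.hn b) (h.hn c) (h.hn d)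
    (Y b c / Y a c) (Y b d / Y a d) (div_ne_zero y3 y2) (div_ne_zero y5 y4) h1 ?_ ?_
  · have h5 : (n b * Y a b) * ((n c : M) * (Y b c / Y a c - (Y b c / Y a c)⁻¹) +
        n d * (Y b d / Y a d - (Y b d / Y a d)⁻¹)) = (n b * Y a b) * 0 := by
      linear_combination (n c : M) * h2 + n d * h3
    exact mul_left_cancel₀ (mul_ne_zero nb y1) h5
  · have h5 : (n a : M) * (Y a c * Y c d / Y a d) + n b * (Y b c * Y c d / Y b d) = 0 := by
      have h6 : (n d : M) * ((n a : M) * (Y a c * Y c d / Y a d) +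
          n b * (Y b c * Y c d / Y b d)) = n d * 0 := by
        rw [inv_div] at h2 h4
        linear_combination -(n a : M) * h2 - n b * h4
      exact mul_left_cancel₀ nd h6
    have h7 : (n a : M) * (Y b d / Y a d) + n b * (Y b c / Y a c) =
        ((n a : M) * (Y a c * Y c d / Y a d) + n b * (Y b c * Y c d / Y b d)) *
          (Y b d / (Y a c * Y c d)) := by
      field_simp
    rw [h7, h5, zero_mul]

/-- a zero pair in the middle -/
theorem zp_tight' (h : Data n m E Y) (D : Dis a b c d) (h0 : E a b = 0) (hp : 0 < E a c)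
    (hq : 0 < E a d) (e1 : E b c = E a c) (e2 : E b d = E a d) (e3 : E c d = E a c + E a d) :
    False := by
  have Dc := D
  obtain ⟨dab, dac, dad, dbc, dbd, dcd⟩ := D
  have h1 := zp_ab h Dc h0 hp hq e1 e2
  have h2 := zp_ac h Dc h0 hp e1
  have h3 := zp_ac h Dc.swap h0 hq e2
  have Db : Dis b a c d := ⟨dab.symm, dbc, dbd, dac, dad, dcd⟩
  have s1 := h.Es c b
  have s2 := h.Es d b
  have s3 := h.Es b a
  have s4 := h.Es c a
  have s5 := h.Es d a
  have s6 := h.Es d c
  have h4 := zp_ac h Db (by omega) (by omega) (by omega)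
  rw [tc_neg (a := a) (b := d) (c := c) (by omega), tc_neg (a := a) (b := c) (c := d) (by omega),
    tc_pos (a := c) (b := a) (c := d) (by omega), h.Ys c a] at h2
  rw [tc_neg (a := a) (b := c) (c := d) (by omega), tc_neg (a := a) (b := d) (c := c) (by omega),
    tc_pos (a := d) (b := a) (c := c) (by omega), h.Ys d a, h.Ys d c] at h3
  rw [tc_neg (a := b) (b := d) (c := c) (by omega),
    tc_neg (a := b) (b := c) (c := d) (by omega), tc_pos (a := c) (b := b) (c := d) (by omega),
    h.Ys b a, h.Ys c b] at h4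
  have y1 := h.Y0 a b dab
  have y2 := h.Y0 a c dac
  have y3 := h.Y0 b c dbc
  have y4 := h.Y0 a d dad
  have y5 := h.Y0 b d dbd
  have y6 := h.Y0 c d dcd
  have nb : (n b : M) ≠ 0 := Nat.cast_ne_zero.2 (h.hn b).ne'
  have nd : (n d : M) ≠ 0 := Nat.cast_ne_zero.2 (h.hn d).ne'
  refine alg_false (n a) (n b) (n c) (n d) (h.hn a) (h.hn b) (h.hn c) (h.hn d)
    (Y b c / Y a c) (Y b d / Y a d)⁻¹ (div_ne_zero y3 y2) (inv_ne_zero (div_ne_zero y5 y4))
    (by rw [h1, inv_inv]; ring) ?_ ?_
  · have h5 : (n b * Y a b) * ((n c : M) * (Y b c / Y a c - (Y b c / Y a c)⁻¹) +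
        n d * ((Y b d / Y a d)⁻¹ - ((Y b d / Y a d)⁻¹)⁻¹)) = (n b * Y a b) * 0 := by
      rw [inv_inv]
      linear_combination (n c : M) * h2 - n d * h3
    exact mul_left_cancel₀ (mul_ne_zero nb y1) h5
  · have h5 : (n a : M) * (Y a c * Y a d / Y c d) + n b * (Y b c * Y b d / Y c d) = 0 := by
      have h6 : (n d : M) * ((n a : M) * (Y a c * Y a d / Y c d) +
          n b * (Y b c * Y b d / Y c d)) = n d * 0 := by
        rw [inv_div] at h2 h4
        linear_combination -(n a : M) * h2 - n b * h4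
      exact mul_left_cancel₀ nd h6
    have h7 : (n a : M) * (Y b d / Y a d)⁻¹ + n b * (Y b c / Y a c) =
        ((n a : M) * (Y a c * Y a d / Y c d) + n b * (Y b c * Y b d / Y c d)) *
          (Y c d / (Y a c * Y b d)) := by
      field_simp
    rw [h7, h5, zero_mul]

theorem pos_mul (h : Data n m E Y) (a b : Fin 4) : (0 : ℤ) < n a * n b := by
  have h1 := h.hn a
  have h2 := h.hn b
  exact_mod_cast Nat.mul_pos h1 h2

/-- a zero pair is impossible -/
theorem zero_pair (h : Data n m E Y) (D : Dis a b c d) (h0 : E a b = 0) : False := by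
  have Dc := D
  obtain ⟨dab, dac, dad, dbc, dbd, dcd⟩ := D
  have s1 := h.Es c b
  have s2 := h.Es d b
  have s3 := h.Es b a
  have s4 := h.Es c a
  have s5 := h.Es d a
  have s6 := h.Es d c
  have t1 := h.tri a b c dab dac dbc
  have t2 := h.tri b a c dab.symm dbc dac
  have t3 := h.tri a b d dab dad dbd
  have t4 := h.tri b a d dab.symm dbd dad
  have e1 : E b c = E a c := by omega
  have e2 : E b d = E a d := by omega
  have t5 := h.tri a c d dac dad dcd
  have t6 := h.tri a d c dad dac dcd.symm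
  have t7 := h.tri c a d dac.symm dcd dad
  have p1 := pos_mul h a b
  have p2 := pos_mul h a c
  have p3 := pos_mul h a d
  have p4 := pos_mul h b c
  have p5 := pos_mul h b d
  have p6 := pos_mul h c d
  have hv := h.vol a b c d Dc
  have hm := h.hm
  have g1 := h.E0 a c dac
  have g2 := h.E0 a d dad
  have g3 := h.E0 c d dcd
  rw [e1, e2, h0] at hv
  by_cases hr : E c d = 0
  · have e4 : E a d = E a c := by omega
    rw [e4, hr] at hv
    have hp : m < E a c := by
      by_contra hcon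
      have hcon' : E a c - m ≤ 0 := by omega
      nlinarith [mul_nonneg p2.le (neg_nonneg.2 hcon'), mul_nonneg p3.le (neg_nonneg.2 hcon'),
        mul_nonneg p4.le (neg_nonneg.2 hcon'), mul_nonneg p5.le (neg_nonneg.2 hcon'),
        mul_pos p1 hm, mul_pos p6 hm]
    exact h.c2 a b c d Dc (by omega)
  by_cases hp : E a c = 0
  · have e4 : E c d = E a d := by omega
    rw [e4, hp] at hv
    have hq : m < E a d := by
      by_contra hcon
      have hcon' : E a d - m ≤ 0 := by omega
      nlinarith [mul_nonneg p3.le (neg_nonneg.2 hcon'), mul_nonneg p5.le (neg_nonneg.2 hcon'),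
        mul_nonneg p6.le (neg_nonneg.2 hcon'), mul_pos p1 hm, mul_pos p2 hm, mul_pos p4 hm]
    exact h.c1 d a b c ⟨dad.symm, dbd.symm, dcd.symm, dab, dac, dbc⟩ (by omega)
  by_cases hq : E a d = 0
  · have e4 : E c d = E a c := by omega
    rw [e4, hq] at hv
    have hp : m < E a c := by
      by_contra hcon
      have hcon' : E a c - m ≤ 0 := by omega
      nlinarith [mul_nonneg p2.le (neg_nonneg.2 hcon'), mul_nonneg p4.le (neg_nonneg.2 hcon'),
        mul_nonneg p6.le (neg_nonneg.2 hcon'), mul_pos p1 hm, mul_pos p3 hm, mul_pos p5 hm]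
    exact h.c1 c a b d ⟨dac.symm, dbc.symm, dcd, dab, dad, dbd⟩ (by omega)
  by_cases h1 : E a d = E a c + E c d
  · exact zp_tight h Dc h0 (by omega) (by omega) e1 e2 h1
  by_cases h2 : E a c = E a d + E c d
  · exact zp_tight h Dc.swap h0 (by omega) (by omega) e2 e1 (by omega)
  by_cases h3 : E c d = E a c + E a d
  · exact zp_tight' h Dc h0 (by omega) (by omega) e1 e2 h3
  have q1 := zp_ab h Dc h0 (by omega) (by omega) e1 e2
  have q2 := zp_ac h Dc h0 (by omega) e1
  have q3 := zp_ac h Dc.swap h0 (by omega) e2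
  rw [tc_neg (a := a) (b := d) (c := c) (by omega), tc_neg (a := a) (b := c) (c := d) (by omega),
    tc_neg (a := c) (b := a) (c := d) (by omega)] at q2
  rw [tc_neg (a := a) (b := c) (c := d) (by omega), tc_neg (a := a) (b := d) (c := c) (by omega),
    tc_neg (a := d) (b := a) (c := c) (by omega)] at q3
  have y1 := h.Y0 a b dab
  have y2 := h.Y0 a c dac
  have y3 := h.Y0 b c dbc
  have y4 := h.Y0 a d dad
  have y5 := h.Y0 b d dbd
  have nb : (n b : M) ≠ 0 := Nat.cast_ne_zero.2 (h.hn b).ne'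
  have key : ∀ u : M, u ≠ 0 → n b * (Y a b * (u - u⁻¹)) = 0 → u ^ 2 = 1 := by
    intro u hu hh
    have h5 : u - u⁻¹ = 0 := by
      have h6 := mul_eq_zero.1 hh
      have h7 := mul_eq_zero.1 (h6.resolve_left nb)
      exact h7.resolve_left y1
    have h8 : u = u⁻¹ := sub_eq_zero.1 h5
    rw [sq]
    nth_rewrite 2 [h8]
    exact mul_inv_cancel₀ hu
  refine alg_false' (n a) (n b) (n c) (n d) (h.hn a) (Y b c / Y a c) (Y b d / Y a d)
    (key _ (div_ne_zero y3 y2) ?_) (key _ (div_ne_zero y5 y4) ?_) q1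
  · rw [← q2]; ring
  · rw [← q3]; ring

/-- four points on a line are impossible -/
theorem line (h : Data n m E Y) (D : Dis a b c d) (hx : 0 < E a b) (hy : 0 < E b c)
    (hz : 0 < E c d) (e1 : E a c = E a b + E b c) (e2 : E b d = E b c + E c d)
    (e3 : E a d = E a b + E b c + E c d) : False := by
  have Dc := D
  obtain ⟨dab, dac, dad, dbc, dbd, dcd⟩ := D
  have s1 := h.Es c b
  have s2 := h.Es d b
  have s3 := h.Es b a
  have s4 := h.Es c a
  have s5 := h.Es d a
  have s6 := h.Es d c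
  have hm := h.hm
  by_cases h1 : E a b < m
  · exact h.c1' a b c d Dc (by omega)
  by_cases h2 : E c d < m
  · exact h.c1' d c a b ⟨dcd.symm, dad.symm, dbd.symm, dac.symm, dbc.symm, dab⟩ (by omega)
  by_cases h3 : E b c < m
  · exact h.c2' a b c d Dc (by omega)
  have p1 := pos_mul h a b
  have p2 := pos_mul h a c
  have p3 := pos_mul h a d
  have p4 := pos_mul h b c
  have p5 := pos_mul h b d
  have p6 := pos_mul h c d
  have hv := h.vol a b c d Dc
  have w1 := mul_nonneg p1.le (show 0 ≤ E a b - m by omega)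
  have w2 := mul_nonneg p2.le (show 0 ≤ E a c - m by omega)
  have w3 := mul_pos p3 (show 0 < E a d - m by omega)
  have w4 := mul_nonneg p4.le (show 0 ≤ E b c - m by omega)
  have w5 := mul_nonneg p5.le (show 0 ≤ E b d - m by omega)
  have w6 := mul_nonneg p6.le (show 0 ≤ E c d - m by omega)
  linarith

/-- **The core**: the data of a place are contradictory. -/
theorem core (h : Data n m E Y) : False := by
  by_cases hz : ∃ a b, a ≠ b ∧ E a b = 0
  · obtain ⟨a, b, hab, h0⟩ := hz
    obtain ⟨c, d, D⟩ := exists_cd a b hab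
    exact zero_pair h D h0
  have hpos : ∀ a b, a ≠ b → 0 < E a b := by
    intro a b hab
    have h1 := h.E0 a b hab
    have h2 : E a b ≠ 0 := fun h3 => hz ⟨a, b, hab, h3⟩
    omega
  obtain ⟨a, b, c, hab, hac, hbc, hT, hmax⟩ : ∃ a b c, a ≠ b ∧ a ≠ c ∧ b ≠ c ∧
      E a c = E a b + E b c ∧ ∀ a' b' c', a' ≠ b' → a' ≠ c' → b' ≠ c' →
        E a' c' = E a' b' + E b' c' → E a' c' ≤ E a c := by
    classical
    have hne : (Finset.univ.filter (fun q : Fin 4 × Fin 4 × Fin 4 => q.1 ≠ q.2.1 ∧ q.1 ≠ q.2.2 ∧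
        q.2.1 ≠ q.2.2 ∧ E q.1 q.2.2 = E q.1 q.2.1 + E q.2.1 q.2.2)).Nonempty := by
      rcases h.att with h1 | ⟨a, b, c, h1, h2, h3, h4⟩
      · exact absurd h1 hz
      · exact ⟨(a, b, c), by simp only [Finset.mem_filter, Finset.mem_univ, true_and]
                             exact ⟨h1, h2, h3, h4⟩⟩
    obtain ⟨⟨a, b, c⟩, hq, hmax⟩ := Finset.exists_max_image _ (fun q => E q.1 q.2.2) hne
    simp only [Finset.mem_filter, Finset.mem_univ, true_and] at hq
    refine ⟨a, b, c, hq.1, hq.2.1, hq.2.2.1, hq.2.2.2, ?_⟩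
    intro a' b' c' g1 g2 g3 g4
    exact hmax (a', b', c') (by simp only [Finset.mem_filter, Finset.mem_univ, true_and]
                                exact ⟨g1, g2, g3, g4⟩)
  obtain ⟨d, D⟩ := exists_d a b c hab hac hbc
  have Dc := D
  obtain ⟨-, -, had, -, hbd, hcd⟩ := D
  have s1 := h.Es c b
  have s2 := h.Es d b
  have s3 := h.Es b a
  have s4 := h.Es c a
  have s5 := h.Es d a
  have s6 := h.Es d c
  have g1 := hpos a b hab
  have g2 := hpos a c hac
  have g3 := hpos a d had
  have g4 := hpos b c hbc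
  have g5 := hpos b d hbd
  have g6 := hpos c d hcd
  have y1 := h.Y0 a b hab
  have y2 := h.Y0 a c hac
  have y3 := h.Y0 b c hbc
  have y4 := h.Y0 a d had
  have y5 := h.Y0 b d hbd
  have y6 := h.Y0 c d hcd
  have nb : (n b : M) ≠ 0 := Nat.cast_ne_zero.2 (h.hn b).ne'
  have nc : (n c : M) ≠ 0 := Nat.cast_ne_zero.2 (h.hn c).ne'
  have nd : (n d : M) ≠ 0 := Nat.cast_ne_zero.2 (h.hn d).ne'
  have m1 : E a d ≠ E a c + E c d := fun hh => by
    have := hmax a c d hac had hcd hh
    omega
  have m2 : E c d ≠ E c a + E a d := fun hh => by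
    have := hmax c a d hac.symm hcd had hh
    omega
  -- the equation of the long side
  have q1 := h.top a c b d ⟨hac, hab, had, hbc.symm, hcd, hbd⟩
  rw [yc_neg (a := a) (b := c) (by omega), tc_neg (a := a) (b := c) (c := b) (by omega),
    tc_neg (a := c) (b := a) (c := b) (by omega), tc_neg (a := a) (b := c) (c := d) m1,
    tc_neg (a := c) (b := a) (c := d) m2] at q1
  have hτ : tc E Y a b c ≠ 0 := by
    rw [tc_pos hT]
    exact div_ne_zero (mul_ne_zero y1 y3) y2
  have hT' : E a c = E a d + E d c := by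
    by_contra hcon
    rw [tc_neg (a := a) (b := d) (c := c) hcon] at q1
    have q2 : (n b : M) * tc E Y a b c = 0 := by linear_combination q1
    exact (mul_ne_zero nb hτ) q2
  by_cases l1 : E a d = E a b + E b d
  · -- the line a b d c
    exact line h (a := a) (b := b) (c := d) (d := c) Dc.swap g1 g5 (by omega) (by omega)
      (by omega) (by omega)
  by_cases l2 : E a b = E a d + E d b
  · -- the line a d b c
    exact line h (a := a) (b := d) (c := b) (d := c)
      ⟨had, hab, hac, hbd.symm, hcd.symm, hbc⟩ g3 (by omega) g4 (by omega) (by omega) (by omega)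
  -- the equations of the sides a b and a d
  have q3 := h.top a b c d Dc
  rw [yc_neg (a := a) (b := b) (by omega), tc_neg (a := a) (b := c) (c := b) (by omega),
    tc_neg (a := b) (b := a) (c := c) (by omega), tc_neg (a := a) (b := d) (c := b) l2,
    tc_neg (a := a) (b := b) (c := d) l1] at q3
  have q4 := h.top a d c b ⟨had, hac, hab, hcd.symm, hbd.symm, hbc.symm⟩
  rw [yc_neg (a := a) (b := d) (by omega), tc_neg (a := a) (b := c) (c := d) m1,
    tc_neg (a := d) (b := a) (c := c) (by omega), tc_neg (a := a) (b := b) (c := d) l1,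
    tc_neg (a := a) (b := d) (c := b) l2] at q4
  have hs : tc E Y d a b = tc E Y b a d := by
    unfold tc
    rw [h.Ys d a, h.Ys d b, h.Ys b a, s5, s2, s3, mul_comm (Y a d), add_comm (E a d)]
  rw [hs] at q4
  have q5 : (n b : M) * tc E Y a b c = n d * tc E Y a d c := by
    have q6 : (n c : M) * ((n b : M) * tc E Y a b c) = n c * (n d * tc E Y a d c) := by
      linear_combination -(n b : M) * q3 + n d * q4
    exact mul_left_cancel₀ nc q6
  have q7 : (2 : M) * ((n b : M) * tc E Y a b c) = 0 := by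
    linear_combination q1 + q5
  exact (mul_ne_zero two_ne_zero (mul_ne_zero nb hτ)) q7

end

end Pool.Agent.H43.F4
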