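import Pool.Agent.H43.F4.Eqs

/-!
# From a solution at a place to the combinatorial data
-/

namespace Pool.Agent.H43.F4

open Pool.Agent.H98.FL Pool.Agent.H98.FL.LogResAux

theorem exists_max {ι : Type*} [Finite ι] (P : ι → Prop) (hP : ∃ i, P i) (f : ι → ℤ) :
    ∃ i, P i ∧ ∀ j, P j → f j ≤ f i := by
  classical
  have := Fintype.ofFinite ι
  have hne : (Finset.univ.filter P).Nonempty := by
    obtain ⟨i, hi⟩ := hP
    exact ⟨i, by simpa using hi⟩
  obtain ⟨i, hi, hmax⟩ := Finset.exists_max_image _ f hne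
  exact ⟨i, by simpa using hi, fun j hj => hmax j (by simpa using hj)⟩

section

set_option linter.unusedSectionVars false

variable {M L : Type*} [Field M] [CharZero M] [Field L] [Algebra M L] (O : Ord M L) {t : L}

open Classical in
/-- leading coefficient -/
noncomputable def lc (ht : t ≠ 0) (ht1 : O.ord t = 1) (u : L) : M :=
  if h : u ≠ 0 then Classical.choose (lead_exists ht ht1 h) else 0

theorem lc_spec (ht : t ≠ 0) (ht1 : O.ord t = 1) {u : L} (h : u ≠ 0) :
    lc O ht ht1 u ≠ 0 ∧ Lead O t (O.ord u) u (lc O ht ht1 u) := by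
  unfold lc
  rw [dif_pos h]
  exact Classical.choose_spec (lead_exists ht ht1 h)

theorem ge_natCast (k : ℕ) : Ge O 0 ((k : ℕ) : L) := by
  have h := ge_const O (k : M)
  rwa [map_natCast] at h

/-- nonzero natural numbers have order zero -/
theorem ord_natCast {k : ℕ} (hk : k ≠ 0) : O.ord ((k : ℕ) : L) = 0 := by
  have h := O.ord_const (k : M) (Nat.cast_ne_zero.2 hk)
  rwa [map_natCast] at h

include O in
theorem nat_ne {k : ℕ} (hk : k ≠ 0) : ((k : ℕ) : L) ≠ 0 := by
  have h : algebraMap M L (k : M) ≠ 0 := by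
    rw [Ne, map_eq_zero_iff _ (algebraMap M L).injective]
    exact Nat.cast_ne_zero.2 hk
  rwa [map_natCast] at h

theorem Ge.nmul {s : ℤ} {u : L} (k : ℕ) (h : Ge O s u) : Ge O s ((k : L) * u) := by
  have h1 := (ge_natCast O k).mul h
  rwa [zero_add] at h1

theorem Ge.sub' {s : ℤ} {u v : L} (h : Ge O s u) (h' : Ge O s v) : Ge O s (u - v) := by
  rw [sub_eq_add_neg]
  exact h.add (ge_neg h')

theorem data_false {n : Fin 4 → ℕ} (hn : ∀ i, 0 < n i) {x y : Fin 4 → Fin 4 → L}
    (h : Sys (fun i => (n i : L)) x y)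
    (hv : ∀ a b c d, Dis a b c d → (n a * n b : ℤ) * O.ord (x a b) +
      (n a * n c : ℤ) * O.ord (x a c) + (n a * n d : ℤ) * O.ord (x a d) +
      (n b * n c : ℤ) * O.ord (x b c) + (n b * n d : ℤ) * O.ord (x b d) +
      (n c * n d : ℤ) * O.ord (x c d) = 0)
    (hp : ∃ a b, a ≠ b ∧ 0 < O.ord (x a b)) : False := by
  obtain ⟨t, ht, ht1⟩ := O.unif
  have hx0 : ∀ i j, x i j ≠ 0 := fun i j => left_ne_zero_of_mul_eq_one (h.2.1 i j)
  have hy0 : ∀ i j, y i j ≠ 0 := fun i j => right_ne_zero_of_mul_eq_one (h.2.1 i j)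
  have hord : ∀ i j, O.ord (y i j) = -O.ord (x i j) := by
    intro i j
    have h1 := O.ord_mul _ _ (hx0 i j) (hy0 i j)
    rw [h.2.1, ord_one] at h1
    omega
  -- the greatest pole order of the terms
  obtain ⟨⟨p1, p2⟩, hp12, hpm⟩ := exists_max (fun q : Fin 4 × Fin 4 => q.1 ≠ q.2)
    ⟨(0, 1), by decide⟩ (fun q => O.ord (x q.1 q.2))
  obtain ⟨⟨q1, q2, q3⟩, hq123, hqm⟩ := exists_max
    (fun q : Fin 4 × Fin 4 × Fin 4 => q.1 ≠ q.2.1 ∧ q.1 ≠ q.2.2 ∧ q.2.1 ≠ q.2.2)
    ⟨(0, 1, 2), by decide⟩ (fun q => O.ord (x q.1 q.2.1) + O.ord (x q.2.1 q.2.2) -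
      O.ord (x q.1 q.2.2))
  dsimp only at hp12 hpm hq123 hqm
  set m : ℤ := max (O.ord (x p1 p2)) (O.ord (x q1 q2) + O.ord (x q2 q3) - O.ord (x q1 q3))
    with hm
  set E : Fin 4 → Fin 4 → ℤ := fun a b => m - O.ord (x a b) with hE
  set Y : Fin 4 → Fin 4 → M := fun a b => lc O ht ht1 (y a b) with hY
  have hE' : ∀ a b, E a b = m - O.ord (x a b) := fun _ _ => rfl
  have hoy : ∀ a b, O.ord (y a b) = -m + E a b := fun a b => by rw [hord, hE']; ring
  have hox : ∀ a b, O.ord (x a b) = m - E a b := fun a b => by rw [hE']; ring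
  have E0 : ∀ a b, a ≠ b → 0 ≤ E a b := by
    intro a b hab
    have h1 := hpm (a, b) hab
    have h2 := le_max_left (O.ord (x p1 p2))
      (O.ord (x q1 q2) + O.ord (x q2 q3) - O.ord (x q1 q3))
    rw [hE']
    dsimp only at h1
    omega
  have tri : ∀ a b c, a ≠ b → a ≠ c → b ≠ c → E a c ≤ E a b + E b c := by
    intro a b c h1 h2 h3
    have h4 := hqm (a, b, c) ⟨h1, h2, h3⟩
    have h5 := le_max_right (O.ord (x p1 p2))
      (O.ord (x q1 q2) + O.ord (x q2 q3) - O.ord (x q1 q3))
    rw [hE', hE', hE']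
    dsimp only at h4
    omega
  have Ys : ∀ a b, Y a b = Y b a := by
    intro a b
    simp only [hY]
    rw [ysymm h a b]
  have Y0 : ∀ a b, Y a b ≠ 0 := fun a b => (lc_spec O ht ht1 (hy0 a b)).1
  have lY : ∀ a b, Lead O t (-m + E a b) (y a b) (Y a b) := by
    intro a b
    rw [← hoy]
    exact (lc_spec O ht ht1 (hy0 a b)).2
  have lX : ∀ a b, Lead O t (m - E a b) (x a b) (Y a b)⁻¹ := by
    intro a b
    obtain ⟨c, hc, hl⟩ := lead_exists (O := O) ht ht1 (hx0 a b)
    rw [hox] at hl
    have h1 := hl.mul ht ht1 (lY a b)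
    rw [h.2.1, show m - E a b + (-m + E a b) = 0 by ring] at h1
    have h2 := lead_const (O := O) (t := t) (1 : M)
    rw [map_one] at h2
    have h3 := lead_unique ht ht1 h1 h2
    rwa [eq_inv_of_mul_eq_one_left h3] at hl
  -- leading terms of the monomials
  have lT' : ∀ a b c, Lead O t (-m + (E a b + E b c - E a c)) (T x y a b c)
      ((Y a c)⁻¹ * (Y a b * Y b c)) := by
    intro a b c
    have h1 := (lX a c).mul ht ht1 ((lY a b).mul ht ht1 (lY b c))
    rw [show m - E a c + (-m + E a b + (-m + E b c)) = -m + (E a b + E b c - E a c) by ring] at h1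
    exact h1
  have lT : ∀ a b c, a ≠ b → a ≠ c → b ≠ c → Lead O t (-m) (T x y a b c) (tc E Y a b c) := by
    intro a b c h1 h2 h3
    by_cases h4 : E a c = E a b + E b c
    · rw [tc_pos h4]
      have h5 := lT' a b c
      rw [h4, sub_self, add_zero] at h5
      rwa [div_eq_mul_inv, mul_comm (Y a b * Y b c)]
    · rw [tc_neg h4]
      have h5 := tri a b c h1 h2 h3
      exact (lT' a b c).weaken ht ht1 (by omega)
  have lc' : ∀ a b, a ≠ b → Lead O t (-m) (y a b) (yc E Y a b) := by
    intro a b h1
    by_cases h4 : E a b = 0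
    · rw [yc_pos h4]
      have h5 := lY a b
      rwa [h4, add_zero] at h5
    · rw [yc_neg h4]
      have h5 := E0 a b h1
      exact (lY a b).weaken ht ht1 (by omega)
  have gT : ∀ a b c, Ge O (-m + (E a b + E b c - E a c)) (T x y a b c) := fun a b c =>
    (lT' a b c).ge ht ht1
  have gy : ∀ a b, Ge O (-m + E a b) (y a b) := fun a b => (lY a b).ge ht ht1
  have hmpos : 0 < m := by
    obtain ⟨a, b, hab, h0⟩ := hp
    have h1 := hpm (a, b) hab
    have h2 := le_max_left (O.ord (x p1 p2))
      (O.ord (x q1 q2) + O.ord (x q2 q3) - O.ord (x q1 q3))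
    dsimp only at h1
    omega
  have Es : ∀ a b, E a b = E b a := by
    intro a b
    rw [hE', hE', h.1 a b]
  have nN : ∀ a b c d : Fin 4, 2 * (n a + n b + n c + n d) ≠ 0 := fun a b c d => by
    have := hn a
    omega
  refine core (n := n) (m := m) (E := E) (Y := Y)
    { hn := hn, hm := hmpos, Es := Es, Ys := Ys, Y0 := fun a b _ => Y0 a b, E0 := E0, tri := tri,
      att := ?_, vol := ?_, top := ?_, c1 := ?_, c1' := ?_, c2 := ?_, c2' := ?_ }
  · -- attained
    rcases le_total (O.ord (x q1 q2) + O.ord (x q2 q3) - O.ord (x q1 q3)) (O.ord (x p1 p2))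
      with h1 | h1
    · left
      exact ⟨p1, p2, hp12, by rw [hE', hm, max_eq_left h1, sub_self]⟩
    · right
      refine ⟨q1, q2, q3, hq123.1, hq123.2.1, hq123.2.2, ?_⟩
      have h2 : m = O.ord (x q1 q2) + O.ord (x q2 q3) - O.ord (x q1 q3) := by
        rw [hm, max_eq_right h1]
      rw [hE', hE', hE']
      omega
  · intro a b c d D
    have h1 := hv a b c d D
    simp only [hE']
    linear_combination -h1
  · -- the leading terms of the equations
    intro a b c d D
    have Dc := D
    obtain ⟨dab, dac, dad, dbc, dbd, dcd⟩ := D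
    have h1 := eqn h Dc
    have h2 : Lead O t (-m) (2 * ((n a : L) + n b + n c + n d) * y a b +
        n c * (T x y a c b - T x y a b c - T x y b a c) +
        n d * (T x y a d b - T x y a b d - T x y b a d))
        (2 * ((n a : M) + n b + n c + n d) * yc E Y a b +
          n c * (tc E Y a c b - tc E Y a b c - tc E Y b a c) +
          n d * (tc E Y a d b - tc E Y a b d - tc E Y b a d)) := by
      have g1 := (lc' a b dab).const_mul ht ht1 (2 * ((n a : M) + n b + n c + n d))
      have g2 := (((lT a c b dac dab dbc.symm).sub (lT a b c dab dac dbc)).sub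
        (lT b a c dab.symm dbc dac)).const_mul ht ht1 (n c : M)
      have g3 := (((lT a d b dad dab dbd.symm).sub (lT a b d dab dad dbd)).sub
        (lT b a d dab.symm dbd dad)).const_mul ht ht1 (n d : M)
      have g4 := (g1.add g2).add g3
      simp only [map_mul, map_add, map_natCast, map_ofNat] at g4
      exact g4
    rw [h1] at h2
    have h3 : Lead O t (-m) (2 * ((n a : L) + n b + n c + n d)) (0 : M) := by
      have g := (lead_const (O := O) (t := t) (2 * ((n a : M) + n b + n c + n d))).weaken ht ht1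
        (show -m < 0 by omega)
      simp only [map_mul, map_add, map_natCast, map_ofNat] at g
      exact g
    exact lead_unique ht ht1 h2 h3
  · -- cut of one vertex, all terms of positive order
    rintro a b c d D ⟨k1, k2, k3, k4, k5, k6⟩
    have h1 := cut1 h D
    have e1 : 2 * ((n a : L) + n b + n c + n d) * (n b + n c + n d) =
        ((2 * (n a + n b + n c + n d) * (n b + n c + n d) : ℕ) : L) := by push_cast; ring
    rw [e1] at h1
    have hne : 2 * (n a + n b + n c + n d) * (n b + n c + n d) ≠ 0 := by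
      have := hn a
      have := hn b
      positivity
    refine not_ge_of_ord (nat_ne O hne) (ord_natCast O hne) ?_
    rw [← h1]
    have e2 : 2 * ((n a : L) + n b + n c + n d) * (n b * y a b + n c * y a c + n d * y a d) -
        2 * (n b * n c * T x y b a c + n b * n d * T x y b a d + n c * n d * T x y c a d) =
        ((2 * (n a + n b + n c + n d) : ℕ) : L) * (n b * y a b + n c * y a c + n d * y a d) -
        ((2 : ℕ) : L) * (((n b * n c : ℕ) : L) * T x y b a c + ((n b * n d : ℕ) : L) * T x y b a d +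
          ((n c * n d : ℕ) : L) * T x y c a d) := by push_cast; ring
    rw [e2]
    have s1 := Es b a
    have s2 := Es c a
    refine Ge.sub' O (Ge.nmul O _ ((Ge.nmul O _ ?_).add (Ge.nmul O _ ?_) |>.add
      (Ge.nmul O _ ?_))) (Ge.nmul O _ ((Ge.nmul O _ ?_).add (Ge.nmul O _ ?_) |>.add
      (Ge.nmul O _ ?_)))
    · exact ge_mono (gy a b) (by omega)
    · exact ge_mono (gy a c) (by omega)
    · exact ge_mono (gy a d) (by omega)
    · exact ge_mono (gT b a c) (by omega)
    · exact ge_mono (gT b a d) (by omega)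
    · exact ge_mono (gT c a d) (by omega)
  · -- cut of one vertex, a unique term of least order
    rintro a b c d D ⟨k1, k2, k3, k4, k5, k6⟩
    have h1 := cut1 h D
    have hne : 2 * (n a + n b + n c + n d) * n b ≠ 0 := by
      have := hn a
      have := hn b
      positivity
    have hu : ((2 * (n a + n b + n c + n d) * n b : ℕ) : L) * y a b ≠ 0 :=
      mul_ne_zero (nat_ne O hne) (hy0 a b)
    have ho : O.ord (((2 * (n a + n b + n c + n d) * n b : ℕ) : L) * y a b) = -m + E a b := by
      rw [O.ord_mul _ _ (nat_ne O hne) (hy0 a b), ord_natCast O hne, hoy, zero_add]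
    refine not_ge_of_ord hu ho ?_
    have e2 : ((2 * (n a + n b + n c + n d) * n b : ℕ) : L) * y a b =
        ((2 * (n a + n b + n c + n d) * (n b + n c + n d) : ℕ) : L) -
        (((2 * (n a + n b + n c + n d) : ℕ) : L) * (n c * y a c + n d * y a d) -
        ((2 : ℕ) : L) * (((n b * n c : ℕ) : L) * T x y b a c + ((n b * n d : ℕ) : L) * T x y b a d +
          ((n c * n d : ℕ) : L) * T x y c a d)) := by
      push_cast
      linear_combination h1
    rw [e2]
    have s1 := Es b a
    have s2 := Es c a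
    refine Ge.sub' O ?_ (Ge.sub' O (Ge.nmul O _ ((Ge.nmul O _ ?_).add (Ge.nmul O _ ?_)))
      (Ge.nmul O _ ((Ge.nmul O _ ?_).add (Ge.nmul O _ ?_) |>.add (Ge.nmul O _ ?_))))
    · exact ge_mono (ge_natCast O _) (by omega)
    · exact ge_mono (gy a c) (by omega)
    · exact ge_mono (gy a d) (by omega)
    · exact ge_mono (gT b a c) (by omega)
    · exact ge_mono (gT b a d) (by omega)
    · exact ge_mono (gT c a d) (by omega)
  · -- cut of two vertices, all terms of positive order
    rintro a b c d D ⟨k1, k2, k3, k4, k5, k6, k7, k8⟩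
    have h1 := cut2 h D
    have e1 : 2 * ((n a : L) + n b + n c + n d) * ((n a + n b) * (n c + n d)) =
        ((2 * (n a + n b + n c + n d) * ((n a + n b) * (n c + n d)) : ℕ) : L) := by
      push_cast; ring
    rw [e1] at h1
    have hne : 2 * (n a + n b + n c + n d) * ((n a + n b) * (n c + n d)) ≠ 0 := by
      have := hn a
      have := hn c
      positivity
    refine not_ge_of_ord (nat_ne O hne) (ord_natCast O hne) ?_
    rw [← h1]
    have e2 : 2 * ((n a : L) + n b + n c + n d) * (n a * n c * y a c + n a * n d * y a d +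
        n b * n c * y b c + n b * n d * y b d) -
        2 * (n a * n b * n c * T x y a c b + n a * n b * n d * T x y a d b +
          n a * n c * n d * T x y c a d + n b * n c * n d * T x y c b d) =
        ((2 * (n a + n b + n c + n d) : ℕ) : L) * (((n a * n c : ℕ) : L) * y a c +
          ((n a * n d : ℕ) : L) * y a d + ((n b * n c : ℕ) : L) * y b c +
          ((n b * n d : ℕ) : L) * y b d) -
        ((2 : ℕ) : L) * (((n a * n b * n c : ℕ) : L) * T x y a c b +
          ((n a * n b * n d : ℕ) : L) * T x y a d b +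
          ((n a * n c * n d : ℕ) : L) * T x y c a d +
          ((n b * n c * n d : ℕ) : L) * T x y c b d) := by push_cast; ring
    rw [e2]
    have s1 := Es c a
    have s2 := Es c b
    have s3 := Es d b
    refine Ge.sub' O (Ge.nmul O _ ((((Ge.nmul O _ ?_).add (Ge.nmul O _ ?_)).add
      (Ge.nmul O _ ?_)).add (Ge.nmul O _ ?_))) (Ge.nmul O _ ((((Ge.nmul O _ ?_).add
      (Ge.nmul O _ ?_)).add (Ge.nmul O _ ?_)).add (Ge.nmul O _ ?_)))
    · exact ge_mono (gy a c) (by omega)
    · exact ge_mono (gy a d) (by omega)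
    · exact ge_mono (gy b c) (by omega)
    · exact ge_mono (gy b d) (by omega)
    · exact ge_mono (gT a c b) (by omega)
    · exact ge_mono (gT a d b) (by omega)
    · exact ge_mono (gT c a d) (by omega)
    · exact ge_mono (gT c b d) (by omega)
  · -- cut of two vertices, a unique term of least order
    rintro a b c d D ⟨k1, k2, k3, k4, k5, k6, k7, k8⟩
    have h1 := cut2 h D
    have hne : 2 * (n a + n b + n c + n d) * (n b * n c) ≠ 0 := by
      have := hn a
      have := hn b
      have := hn c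
      positivity
    have hu : ((2 * (n a + n b + n c + n d) * (n b * n c) : ℕ) : L) * y b c ≠ 0 :=
      mul_ne_zero (nat_ne O hne) (hy0 b c)
    have ho : O.ord (((2 * (n a + n b + n c + n d) * (n b * n c) : ℕ) : L) * y b c) =
        -m + E b c := by
      rw [O.ord_mul _ _ (nat_ne O hne) (hy0 b c), ord_natCast O hne, hoy, zero_add]
    refine not_ge_of_ord hu ho ?_
    have e2 : ((2 * (n a + n b + n c + n d) * (n b * n c) : ℕ) : L) * y b c =
        ((2 * (n a + n b + n c + n d) * ((n a + n b) * (n c + n d)) : ℕ) : L) -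
        (((2 * (n a + n b + n c + n d) : ℕ) : L) * (((n a * n c : ℕ) : L) * y a c +
          ((n a * n d : ℕ) : L) * y a d + ((n b * n d : ℕ) : L) * y b d) -
        ((2 : ℕ) : L) * (((n a * n b * n c : ℕ) : L) * T x y a c b +
          ((n a * n b * n d : ℕ) : L) * T x y a d b +
          ((n a * n c * n d : ℕ) : L) * T x y c a d +
          ((n b * n c * n d : ℕ) : L) * T x y c b d)) := by
      push_cast
      linear_combination h1
    rw [e2]
    have s1 := Es c a
    have s2 := Es c b
    have s3 := Es d b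
    refine Ge.sub' O ?_ (Ge.sub' O (Ge.nmul O _ (((Ge.nmul O _ ?_).add (Ge.nmul O _ ?_)).add
      (Ge.nmul O _ ?_))) (Ge.nmul O _ ((((Ge.nmul O _ ?_).add
      (Ge.nmul O _ ?_)).add (Ge.nmul O _ ?_)).add (Ge.nmul O _ ?_))))
    · exact ge_mono (ge_natCast O _) (by omega)
    · exact ge_mono (gy a c) (by omega)
    · exact ge_mono (gy a d) (by omega)
    · exact ge_mono (gy b d) (by omega)
    · exact ge_mono (gT a c b) (by omega)
    · exact ge_mono (gT a d b) (by omega)
    · exact ge_mono (gT c a d) (by omega)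
    · exact ge_mono (gT c b d) (by omega)

end

end Pool.Agent.H43.F4
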