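import Pool.Agent.H98.FL.LogRes

/-!
# Leading coefficients at a place

`t` is an element of order 1; `Lead O t s u c` means `u = c t ^ s + (terms of order at least s + 1)`.
-/

namespace Pool.Agent.H43.F4

open Pool.Agent.H98.FL Pool.Agent.H98.FL.LogResAux

variable {M L : Type*} [Field M] [Field L] [Algebra M L]

/-- `u = c t ^ s + (terms of order at least s + 1)` -/
def Lead (O : Ord M L) (t : L) (s : ℤ) (u : L) (c : M) : Prop :=
  Ge O (s + 1) (u - algebraMap M L c * t ^ s)

variable {O : Ord M L} {t : L}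

theorem ge_mono {s r : ℤ} {u : L} (h : Ge O s u) (hr : r ≤ s) : Ge O r u := by
  rcases h with h | h
  · exact Or.inl h
  · exact Or.inr (hr.trans h)

theorem ge_tpow (ht : t ≠ 0) (ht1 : O.ord t = 1) (c : M) (s : ℤ) :
    Ge O s (algebraMap M L c * t ^ s) := by
  have h1 : Ge O s (t ^ s) := Or.inr (by rw [ord_zpow O ht, ht1, mul_one])
  have h2 := (ge_const O c).mul h1
  rwa [zero_add] at h2

theorem Lead.ge (ht : t ≠ 0) (ht1 : O.ord t = 1) {s : ℤ} {u : L} {c : M} (h : Lead O t s u c) :
    Ge O s u := by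
  have h1 : u = (u - algebraMap M L c * t ^ s) + algebraMap M L c * t ^ s := by ring
  rw [h1]
  exact (ge_mono h (by omega)).add (ge_tpow ht ht1 c s)

theorem Lead.add {s : ℤ} {u v : L} {c d : M} (h : Lead O t s u c) (h' : Lead O t s v d) :
    Lead O t s (u + v) (c + d) := by
  have h1 : u + v - algebraMap M L (c + d) * t ^ s =
      (u - algebraMap M L c * t ^ s) + (v - algebraMap M L d * t ^ s) := by
    rw [map_add]; ring
  unfold Lead
  rw [h1]
  exact Ge.add h h'

theorem Lead.neg {s : ℤ} {u : L} {c : M} (h : Lead O t s u c) : Lead O t s (-u) (-c) := by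
  have h1 : -u - algebraMap M L (-c) * t ^ s = -(u - algebraMap M L c * t ^ s) := by
    rw [map_neg]; ring
  unfold Lead
  rw [h1]
  exact ge_neg h

theorem Lead.sub {s : ℤ} {u v : L} {c d : M} (h : Lead O t s u c) (h' : Lead O t s v d) :
    Lead O t s (u - v) (c - d) := by
  have h1 := h.add h'.neg
  rwa [← sub_eq_add_neg, ← sub_eq_add_neg] at h1

theorem Lead.mul (ht : t ≠ 0) (ht1 : O.ord t = 1) {s r : ℤ} {u v : L} {c d : M}
    (h : Lead O t s u c) (h' : Lead O t r v d) : Lead O t (s + r) (u * v) (c * d) := by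
  have h1 : u * v - algebraMap M L (c * d) * t ^ (s + r) =
      (u - algebraMap M L c * t ^ s) * v +
        algebraMap M L c * t ^ s * (v - algebraMap M L d * t ^ r) := by
    rw [map_mul, zpow_add₀ ht]; ring
  unfold Lead
  rw [h1]
  refine Ge.add ?_ ?_
  · have h2 := Ge.mul (show Ge O (s + 1) (u - algebraMap M L c * t ^ s) from h) (h'.ge ht ht1)
    exact ge_mono h2 (by omega)
  · have h2 := Ge.mul (ge_tpow ht ht1 c s)
      (show Ge O (r + 1) (v - algebraMap M L d * t ^ r) from h')
    exact ge_mono h2 (by omega)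

theorem lead_const (c : M) : Lead O t 0 (algebraMap M L c) c := by
  unfold Lead
  left
  rw [zpow_zero, mul_one, sub_self]

theorem lead_of_ge {s : ℤ} {u : L} (h : Ge O (s + 1) u) : Lead O t s u (0 : M) := by
  unfold Lead
  rw [map_zero, zero_mul, sub_zero]
  exact h

theorem Lead.weaken (ht : t ≠ 0) (ht1 : O.ord t = 1) {s r : ℤ} {u : L} {c : M}
    (h : Lead O t s u c) (hr : r < s) : Lead O t r u (0 : M) :=
  lead_of_ge (ge_mono (h.ge ht ht1) (by omega))

theorem Lead.const_mul {s : ℤ} {u : L} {c : M} (ht : t ≠ 0) (ht1 : O.ord t = 1)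
    (h : Lead O t s u c) (a : M) : Lead O t s (algebraMap M L a * u) (a * c) := by
  have h1 := (lead_const (O := O) (t := t) a).mul ht ht1 h
  rwa [zero_add] at h1

theorem lead_zero_eq (ht : t ≠ 0) (ht1 : O.ord t = 1) {s : ℤ} {c : M} (h : Lead O t s (0 : L) c) :
    c = 0 := by
  by_contra hc
  have h1 : algebraMap M L c ≠ 0 := by
    rw [Ne, map_eq_zero_iff _ (algebraMap M L).injective]; exact hc
  have h2 : t ^ s ≠ 0 := zpow_ne_zero _ ht
  unfold Lead at h
  rw [zero_sub] at h
  rcases h with h | h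
  · exact mul_ne_zero h1 h2 (neg_eq_zero.1 h)
  · have h3 : O.ord (-(algebraMap M L c * t ^ s)) = s := by
      have h4 : -(algebraMap M L c * t ^ s) = algebraMap M L (-c) * t ^ s := by
        rw [map_neg]; ring
      have h5 : algebraMap M L (-c) ≠ 0 := by
        rw [map_neg]; exact neg_ne_zero.2 h1
      rw [h4, O.ord_mul _ _ h5 h2, O.ord_const _ (neg_ne_zero.2 hc), ord_zpow O ht, ht1]
      ring
    rw [h3] at h
    omega

theorem lead_unique (ht : t ≠ 0) (ht1 : O.ord t = 1) {s : ℤ} {u : L} {c d : M}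
    (h : Lead O t s u c) (h' : Lead O t s u d) : c = d := by
  have h1 := h.sub h'
  rw [sub_self] at h1
  exact sub_eq_zero.1 (lead_zero_eq ht ht1 h1)

theorem lead_exists (ht : t ≠ 0) (ht1 : O.ord t = 1) {u : L} (hu : u ≠ 0) :
    ∃ c : M, c ≠ 0 ∧ Lead O t (O.ord u) u c := by
  set s := O.ord u with hs
  have h0 : u * t ^ (-s) ≠ 0 := mul_ne_zero hu (zpow_ne_zero _ ht)
  have h1 : O.ord (u * t ^ (-s)) = 0 := by
    rw [O.ord_mul _ _ hu (zpow_ne_zero _ ht), ord_zpow O ht, ht1]
    omega
  obtain ⟨c, hc⟩ := O.res (u * t ^ (-s)) h0 h1.ge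
  have h2 : Lead O t 0 (u * t ^ (-s)) c := by
    unfold Lead
    rw [zpow_zero, mul_one]
    by_cases h : u * t ^ (-s) - algebraMap M L c = 0
    · exact Or.inl h
    · exact Or.inr (hc h)
  refine ⟨c, ?_, ?_⟩
  · rintro rfl
    have h3 := (show Ge O (0 + 1) (u * t ^ (-s) - algebraMap M L 0 * t ^ (0 : ℤ)) from h2)
    rw [map_zero, zero_mul, sub_zero] at h3
    rcases h3 with h3 | h3
    · exact h0 h3
    · rw [h1] at h3; omega
  · have h3 : Lead O t s (t ^ s) (1 : M) := by
      unfold Lead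
      left
      rw [map_one, one_mul, sub_self]
    have h4 := h2.mul ht ht1 h3
    rw [zero_add, mul_one] at h4
    have h5 : u * t ^ (-s) * t ^ s = u := by
      rw [mul_assoc, ← zpow_add₀ ht, neg_add_cancel, zpow_zero, mul_one]
    rwa [h5] at h4

/-- In a relation `u = v` the element `u` of exact order `s` is not of order at least `s + 1`. -/
theorem not_ge_of_ord {s : ℤ} {u : L} (hu : u ≠ 0) (h : O.ord u = s) : ¬ Ge O (s + 1) u := by
  rintro (h1 | h1)
  · exact hu h1
  · omega

end Pool.Agent.H43.F4
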