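import Pool.Agent.H43.F4.Core
import Pool.Agent.H43.F4.Lead
import Pool.Agent.H98.FL.Vol

/-!
# The equations at a place

A solution of the Einstein system for four blocks over a field with a place, at which some unknown has
a zero and where the volume has order zero, gives the data of `Core`, a contradiction.
-/

namespace Pool.Agent.H43.F4

open Pool.Agent.H98.FL Pool.Agent.H98.FL.LogResAux

theorem sum4 {A : Type*} [AddCommMonoid A] {a b c d : Fin 4} (D : Dis a b c d) (f : Fin 4 → A) :
    ∑ l, f l = f a + f b + f c + f d := by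
  have hu : ∀ a b c d : Fin 4, Dis a b c d → (Finset.univ : Finset (Fin 4)) = {a, b, c, d} := by
    unfold Dis
    decide
  obtain ⟨h1, h2, h3, h4, h5, h6⟩ := D
  rw [hu a b c d ⟨h1, h2, h3, h4, h5, h6⟩, Finset.sum_insert, Finset.sum_insert,
    Finset.sum_insert, Finset.sum_singleton, ← add_assoc, ← add_assoc]
  · simpa using h6
  · simpa using ⟨h4, h5⟩
  · simpa using ⟨h1, h2, h3⟩

section

variable {L : Type*} [Field L] {n : Fin 4 → ℕ} {x y : Fin 4 → Fin 4 → L} {a b c d : Fin 4}

/-- the monomials of the equations -/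
def T (x y : Fin 4 → Fin 4 → L) (a b c : Fin 4) : L := x a c * (y a b * y b c)

private theorem term_eq (nc xab xac xbc yab yac ybc : L) (e1 : xab * yab = 1)
    (e2 : xac * yac = 1) (e3 : xbc * ybc = 1) :
    yab * (nc * (xac ^ 2 + xbc ^ 2 - xab ^ 2) * (yac * ybc)) =
      nc * (xac * (yab * ybc) + xbc * (yab * yac) - xab * (yac * ybc)) := by
  linear_combination nc * (xac * yab * ybc) * e2 + nc * (xbc * yab * yac) * e3 -
    nc * (xab * yac * ybc) * e1

theorem ysymm (h : Sys (fun i => (n i : L)) x y) (i j : Fin 4) : y i j = y j i := by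
  have h1 := h.2.1 i j
  have h2 := h.2.1 j i
  rw [← h.1 i j] at h2
  have h3 : x i j ≠ 0 := left_ne_zero_of_mul_eq_one h1
  exact mul_left_cancel₀ h3 (h1.trans h2.symm)

theorem eqn (h : Sys (fun i => (n i : L)) x y) (D : Dis a b c d) :
    2 * ((n a : L) + n b + n c + n d) * y a b + n c * (T x y a c b - T x y a b c - T x y b a c) +
      n d * (T x y a d b - T x y a b d - T x y b a d) = 2 * ((n a : L) + n b + n c + n d) := by
  have Dc := D
  obtain ⟨dab, dac, dad, dbc, dbd, dcd⟩ := D
  have h4 := h.2.2.2 a b dab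
  rw [sum4 Dc, sum4 Dc, if_pos (Or.inl rfl), if_pos (Or.inr rfl),
    if_neg (by rintro (h1 | h1); exacts [dac h1.symm, dbc h1.symm]),
    if_neg (by rintro (h1 | h1); exacts [dad h1.symm, dbd h1.symm])] at h4
  have e1 := term_eq (n c : L) _ _ _ _ _ _ (h.2.1 a b) (h.2.1 a c) (h.2.1 b c)
  have e2 := term_eq (n d : L) _ _ _ _ _ _ (h.2.1 a b) (h.2.1 a d) (h.2.1 b d)
  unfold T
  rw [ysymm h c b, ysymm h b a, ysymm h d b]
  linear_combination (y a b) * h4 + e1 + e2 + 2 * ((n a : L) + n b + n c + n d) * h.2.1 a b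

/-- symmetry of the monomials -/
theorem T_symm (h : Sys (fun i => (n i : L)) x y) (a b c : Fin 4) : T x y a b c = T x y c b a := by
  unfold T
  rw [h.1 a c, ysymm h a b, ysymm h b c, mul_comm (y b a)]

/-- the cut of one vertex -/
theorem cut1 (h : Sys (fun i => (n i : L)) x y) (D : Dis a b c d) :
    2 * ((n a : L) + n b + n c + n d) * (n b * y a b + n c * y a c + n d * y a d) -
      2 * (n b * n c * T x y b a c + n b * n d * T x y b a d + n c * n d * T x y c a d) =
      2 * ((n a : L) + n b + n c + n d) * (n b + n c + n d) := by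
  have Dc := D
  obtain ⟨dab, dac, dad, dbc, dbd, dcd⟩ := D
  have h1 := eqn h Dc
  have h2 := eqn h (a := a) (b := c) (c := b) (d := d) ⟨dac, dab, dad, dbc.symm, dcd, dbd⟩
  have h3 := eqn h (a := a) (b := d) (c := b) (d := c)
    ⟨dad, dab, dac, dbd.symm, dcd.symm, dbc⟩
  rw [T_symm h c a b] at h2
  rw [T_symm h d a b, T_symm h d a c] at h3
  linear_combination (n b : L) * h1 + n c * h2 + n d * h3

/-- the cut of two vertices -/
theorem cut2 (h : Sys (fun i => (n i : L)) x y) (D : Dis a b c d) :
    2 * ((n a : L) + n b + n c + n d) * (n a * n c * y a c + n a * n d * y a d +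
      n b * n c * y b c + n b * n d * y b d) -
      2 * (n a * n b * n c * T x y a c b + n a * n b * n d * T x y a d b +
        n a * n c * n d * T x y c a d + n b * n c * n d * T x y c b d) =
      2 * ((n a : L) + n b + n c + n d) * ((n a + n b) * (n c + n d)) := by
  obtain ⟨dab, dac, dad, dbc, dbd, dcd⟩ := D
  have h1 := eqn h (a := a) (b := c) (c := b) (d := d) ⟨dac, dab, dad, dbc.symm, dcd, dbd⟩
  have h2 := eqn h (a := a) (b := d) (c := b) (d := c)
    ⟨dad, dab, dac, dbd.symm, dcd.symm, dbc⟩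
  have h3 := eqn h (a := b) (b := c) (c := a) (d := d)
    ⟨dbc, dab.symm, dbd, dac.symm, dcd, dad⟩
  have h4 := eqn h (a := b) (b := d) (c := a) (d := c)
    ⟨dbd, dab.symm, dbc, dad.symm, dcd.symm, dac⟩
  rw [T_symm h c a b, T_symm h c a d] at h1
  rw [T_symm h d a b] at h2
  rw [T_symm h b c a, T_symm h c b a, T_symm h c b d] at h3
  rw [T_symm h b d a, T_symm h d b a] at h4
  have s1 := T_symm h d a c
  have s2 := T_symm h d b c
  rw [T_symm h c a d, T_symm h c b d]
  linear_combination (n a * n c : L) * h1 + (n a * n d : L) * h2 + (n b * n c : L) * h3 +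
    (n b * n d : L) * h4

end

end Pool.Agent.H43.F4
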