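import Pool.Agent.H98.FL.Rosen

/-!
# Places of a curve of solutions

Variant of `Pool.Agent.H98.FL.rosen` (helper98) which returns the place itself: if one of finitely
many nonzero elements `x_i` of an algebraically closed field `Ω ⊇ F` is transcendental over `F`, there
are an algebraically closed field `M ⊇ F`, a function field `L ⊆ Ω` over `M` containing the `x_i`, a
derivation of `L` over `M` and a place of `L` at which the given `x_i` has a zero.
-/

namespace Pool.Agent.H43.F4

open Pool.Agent.H98.FL

universe u

private theorem place_core {M Ω : Type u} [Field M] [Field Ω]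
    [Algebra M Ω] [CharZero M] [IsAlgClosed M]
    (y : Ω) (hy : Transcendental M y)
    (halg : ∀ z : Ω, IsAlgebraic (IntermediateField.adjoin M {y}) z)
    {ι : Type} [Finite ι] (x : ι → Ω) (i0 : ι) (h0 : x i0 = y) :
    ∃ (L : Type u) (_ : Field L) (_ : Algebra M L) (O : Ord M L) (D : Derivation M L L)
      (g : L →+* Ω) (z : ι → L), D ≠ 0 ∧ (∀ i, g (z i) = x i) ∧ 0 < O.ord (z i0) := by
  classical
  have hinj : Function.Injective (Polynomial.aeval y : Polynomial M →ₐ[M] Ω) :=
    transcendental_iff_injective.1 hy
  let ψ : RatFunc M →ₐ[M] Ω := RatFunc.liftAlgHom (Polynomial.aeval y)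
    (nonZeroDivisors_le_comap_nonZeroDivisors_of_injective _ hinj)
  have hψX : ψ RatFunc.X = y := by
    have h1 := RatFunc.liftAlgHom_apply_div (Polynomial.aeval y)
      (nonZeroDivisors_le_comap_nonZeroDivisors_of_injective _ hinj)
      (Polynomial.X : Polynomial M) 1
    rw [map_one, div_one, RatFunc.algebraMap_X, map_one, div_one, Polynomial.aeval_X] at h1
    exact h1
  let _ : Algebra (RatFunc M) Ω := ψ.toRingHom.toAlgebra
  have hmap : ∀ r : RatFunc M, algebraMap (RatFunc M) Ω r = ψ r := fun r => rfl
  have : IsScalarTower M (RatFunc M) Ω :=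
    IsScalarTower.of_algebraMap_eq (fun r => (ψ.commutes r).symm)
  have hint : ∀ z : Ω, IsAlgebraic (RatFunc M) z := by
    intro z
    have hle : IntermediateField.adjoin M {y} ≤ ψ.fieldRange := by
      rw [IntermediateField.adjoin_le_iff, Set.singleton_subset_iff]
      exact ⟨RatFunc.X, hψX⟩
    let g : IntermediateField.adjoin M {y} →+* ψ.fieldRange :=
      (IntermediateField.inclusion hle).toRingHom
    have h1 : IsAlgebraic ψ.fieldRange (RingHom.id Ω z) :=
      (halg z).ringHom_of_comp_eq g (RingHom.id Ω) g.injective (by ext w; rfl)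
    let f : RatFunc M →+* ψ.fieldRange :=
      { toFun := fun r => ⟨ψ r, ⟨r, rfl⟩⟩
        map_one' := Subtype.ext (map_one ψ)
        map_mul' := fun _ _ => Subtype.ext (map_mul ψ _ _)
        map_zero' := Subtype.ext (map_zero ψ)
        map_add' := fun _ _ => Subtype.ext (map_add ψ _ _) }
    have hf : Function.Surjective f := by
      rintro ⟨w, r, hr⟩
      exact ⟨r, Subtype.ext hr⟩
    exact h1.of_ringHom_of_comp_eq f (RingHom.id Ω) hf Function.injective_id (by ext w; rfl)
  let L : IntermediateField (RatFunc M) Ω := IntermediateField.adjoin (RatFunc M) (Set.range x)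
  have : FiniteDimensional (RatFunc M) L :=
    IntermediateField.finiteDimensional_adjoin (fun z _ => (hint z).isIntegral)
  obtain ⟨D, hD0⟩ := exists_der M L
  obtain ⟨O, hO⟩ := exists_ord M L
  have hxL : ∀ i, x i ∈ L := fun i => IntermediateField.subset_adjoin _ _ ⟨i, rfl⟩
  refine ⟨L, inferInstance, inferInstance, O, D, algebraMap L Ω, fun i => ⟨x i, hxL i⟩, hD0,
    fun i => rfl, ?_⟩
  have h4 : (⟨x i0, hxL i0⟩ : L) = algebraMap (RatFunc M) L RatFunc.X := by
    apply Subtype.ext
    change x i0 = ψ RatFunc.X
    rw [h0, hψX]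
  change 0 < O.ord (⟨x i0, hxL i0⟩ : L)
  rw [h4]
  exact hO

/-- Existence of a place at which a transcendental element has a zero. -/
theorem exists_place {F Ω : Type u} [Field F] [Field Ω] [Algebra F Ω] [CharZero F]
    [IsAlgClosed Ω] {ι : Type} [Finite ι] (x : ι → Ω) (i0 : ι) (ht : Transcendental F (x i0)) :
    ∃ (M : Type u) (_ : Field M) (_ : CharZero M) (L : Type u) (_ : Field L) (_ : Algebra M L)
      (O : Ord M L) (D : Derivation M L L) (g : L →+* Ω) (z : ι → L), D ≠ 0 ∧
      (∀ i, g (z i) = x i) ∧ 0 < O.ord (z i0) := by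
  classical
  set y : Ω := x i0 with hy
  have hs : AlgebraicIndepOn F id ({y} : Set Ω) :=
    (algebraicIndependent_singleton_iff (⟨y, rfl⟩ : ({y} : Set Ω))).2 ht
  obtain ⟨T, hyT, hT⟩ := exists_isTranscendenceBasis_superset hs
  have hyT' : y ∈ T := hyT rfl
  let K0 : IntermediateField F Ω := IntermediateField.adjoin F (T \ {y})
  have hyK0 : Transcendental K0 y := by
    rw [IntermediateField.transcendental_adjoin_iff]
    have h1 := hT.1.transcendental_adjoin (s := {i : T | i.1 ≠ y}) (i := ⟨y, hyT'⟩)
      (fun h => h rfl)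
    have h2 : ((fun i : T => (i : Ω)) '' {i : T | i.1 ≠ y}) = T \ {y} := by
      ext z
      constructor
      · rintro ⟨i, hi, rfl⟩
        exact ⟨i.2, hi⟩
      · rintro ⟨hz1, hz2⟩
        exact ⟨⟨z, hz1⟩, hz2, rfl⟩
    rw [h2] at h1
    exact h1
  let M1 : IntermediateField K0 Ω := algebraicClosure K0 Ω
  have hM1 : IsAlgClosed M1 := (algebraicClosure.isAlgClosure K0 Ω).isAlgClosed
  have hyM1 : Transcendental M1 y := hyK0.extendScalars M1
  have hTalg := hT.isAlgebraic_field
  have hscal : IsScalarTower F M1 Ω := IsScalarTower.of_algebraMap_eq (fun _ => rfl)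
  have hc : CharZero M1 := charZero_of_injective_algebraMap (algebraMap F M1).injective
  obtain ⟨L, i1, i2, O, D, g, z, h1, h2, h3⟩ := place_core (M := M1) y hyM1 (by
    intro z
    let N : IntermediateField M1 Ω := IntermediateField.adjoin M1 {y}
    have hN : ∀ w : Ω, w ∈ IntermediateField.adjoin F (Set.range (fun i : T => (i : Ω))) →
        w ∈ N := by
      intro w hw
      have hFN : ∀ c : F, algebraMap F Ω c ∈ N := by
        intro c
        have : algebraMap F Ω c = algebraMap M1 Ω (algebraMap F M1 c) := rfl
        rw [this]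
        exact N.algebraMap_mem _
      let E : IntermediateField F Ω :=
        { carrier := {z | z ∈ N}
          mul_mem' := fun h1 h2 => N.mul_mem h1 h2
          add_mem' := fun h1 h2 => N.add_mem h1 h2
          algebraMap_mem' := hFN
          inv_mem' := fun _ h1 => N.inv_mem h1 }
      have hle : IntermediateField.adjoin F (Set.range (fun i : T => (i : Ω))) ≤ E := by
        rw [IntermediateField.adjoin_le_iff]
        rintro _ ⟨t, rfl⟩
        change (t : Ω) ∈ N
        by_cases hty : (t : Ω) = y
        · rw [hty]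
          exact IntermediateField.subset_adjoin _ _ rfl
        · have h1 : (t : Ω) ∈ K0 := IntermediateField.subset_adjoin _ _ ⟨t.2, hty⟩
          have h2 : (t : Ω) = algebraMap M1 Ω (algebraMap K0 M1 ⟨t, h1⟩) := rfl
          rw [h2]
          exact N.algebraMap_mem _
      exact hle hw
    let g : IntermediateField.adjoin F (Set.range (fun i : T => (i : Ω))) →+* N :=
      { toFun := fun w => ⟨w.1, hN w.1 w.2⟩
        map_one' := rfl
        map_mul' := fun _ _ => rfl
        map_zero' := rfl
        map_add' := fun _ _ => rfl }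
    exact (hTalg.isAlgebraic z).ringHom_of_comp_eq g (RingHom.id Ω) g.injective (by ext w; rfl))
    x i0 rfl
  exact ⟨M1, inferInstance, hc, L, i1, i2, O, D, g, z, h1, h2, h3⟩

end Pool.Agent.H43.F4
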