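import Pool.Agent.H43.F4.Dat
import Pool.Agent.H43.F4.Place
import Pool.Agent.H98.FL.Bridge

/-!
# Finiteness of invariant Einstein metrics for four blocks

For all positive `n_1, .., n_4` the space `SU(N)/S(U(n_1) × .. × U(n_4))` has only finitely many
invariant Einstein metrics up to homothety.
-/

namespace Pool.Agent.H43.F4

open Pool.Agent.H98.FL Pool.Agent.H98.FL.Stmt

theorem sum_pairs (f : Fin 4 → Fin 4 → ℤ) (hf : ∀ i j, f i j = f j i) {a b c d : Fin 4}
    (D : Dis a b c d) : ∑ i, ∑ j ∈ Finset.Ioi i, f i j =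
      f a b + f a c + f a d + f b c + f b d + f c d := by
  have h0 : Finset.Ioi (0 : Fin 4) = {1, 2, 3} := by decide
  have h1 : Finset.Ioi (1 : Fin 4) = {2, 3} := by decide
  have h2 : Finset.Ioi (2 : Fin 4) = {3} := by decide
  have h3 : Finset.Ioi (3 : Fin 4) = ∅ := by decide
  have e1 : ∑ i, ∑ j, f i j = ∑ i, f i i + 2 * ∑ i, ∑ j ∈ Finset.Ioi i, f i j := by
    rw [Fin.sum_univ_four, Fin.sum_univ_four, Fin.sum_univ_four, Fin.sum_univ_four,
      Fin.sum_univ_four, Fin.sum_univ_four, Fin.sum_univ_four, h0, h1, h2, h3,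
      Finset.sum_insert (by decide), Finset.sum_insert (by decide), Finset.sum_insert (by decide),
      Finset.sum_empty, hf 1 0, hf 2 0, hf 2 1, hf 3 0, hf 3 1, hf 3 2]
    simp only [Finset.sum_singleton]
    ring
  have e2 : ∑ i, ∑ j, f i j = ∑ i, f i i + 2 * (f a b + f a c + f a d + f b c + f b d + f c d) := by
    rw [sum4 D, sum4 D, sum4 D, sum4 D, sum4 D, sum4 D, hf b a, hf c a, hf c b, hf d a, hf d b,
      hf d c]
    ring
  rw [e1] at e2
  linarith

theorem finite_sys4 (n : Fin 4 → ℕ) (hn : ∀ i, 0 < n i) :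
    {p : (Fin 4 → Fin 4 → ℝ) × (Fin 4 → Fin 4 → ℝ) | Sys (fun i => (n i : ℝ)) p.1 p.2}.Finite := by
  classical
  by_contra hinf
  rw [← Set.Infinite] at hinf
  -- coordinates
  let ι := (Fin 4 × Fin 4) ⊕ (Fin 4 × Fin 4)
  let φ : (Fin 4 → Fin 4 → ℝ) × (Fin 4 → Fin 4 → ℝ) → (ι → ℝ) :=
    fun p => Sum.elim (fun q => p.1 q.1 q.2) (fun q => p.2 q.1 q.2)
  have hφ : Function.Injective φ := by
    intro p q h
    refine Prod.ext ?_ ?_
    · funext i j
      exact congrFun h (Sum.inl (i, j))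
    · funext i j
      exact congrFun h (Sum.inr (i, j))
  obtain ⟨L, _, _, X, ⟨i1, hi1⟩, hX⟩ := exists_transcendental
    (φ '' {p : (Fin 4 → Fin 4 → ℝ) × (Fin 4 → Fin 4 → ℝ) | Sys (fun i => (n i : ℝ)) p.1 p.2})
    (hinf.image hφ.injOn)
  have hCL : CharZero L := charZero_of_injective_algebraMap (algebraMap ℝ L).injective
  -- the system over L
  set x : Fin 4 → Fin 4 → L := fun i j => X (Sum.inl (i, j)) with hx
  set y : Fin 4 → Fin 4 → L := fun i j => X (Sum.inr (i, j)) with hy
  let mx : Fin 4 → Fin 4 → MvPolynomial ι ℝ := fun i j => MvPolynomial.X (Sum.inl (i, j))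
  let my : Fin 4 → Fin 4 → MvPolynomial ι ℝ := fun i j => MvPolynomial.X (Sum.inr (i, j))
  have key : ∀ p : MvPolynomial ι ℝ,
      (∀ a b : Fin 4 → Fin 4 → ℝ, Sys (fun i => (n i : ℝ)) a b →
        MvPolynomial.eval (φ (a, b)) p = 0) → MvPolynomial.aeval X p = 0 := by
    intro p hp
    refine hX p ?_
    rintro z ⟨⟨a, b⟩, hab, rfl⟩
    exact hp a b hab
  have hS : Sys (fun i => algebraMap ℝ L (n i : ℝ)) x y := by
    refine ⟨fun i j => ?_, fun i j => ?_, fun i => ?_, fun i j hij => ?_⟩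
    · have := key (mx i j - mx j i) (fun a b hab => by
        simp only [mx, map_sub, MvPolynomial.eval_X]
        exact sub_eq_zero.2 (hab.1 i j))
      simp only [mx, map_sub, MvPolynomial.aeval_X] at this
      exact sub_eq_zero.1 this
    · have := key (mx i j * my i j - 1) (fun a b hab => by
        simp only [mx, my, map_sub, map_mul, map_one, MvPolynomial.eval_X]
        exact sub_eq_zero.2 (hab.2.1 i j))
      simp only [mx, my, map_sub, map_mul, map_one, MvPolynomial.aeval_X] at this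
      exact sub_eq_zero.1 this
    · have := key (mx i i - 1) (fun a b hab => by
        simp only [mx, map_sub, map_one, MvPolynomial.eval_X]
        exact sub_eq_zero.2 (hab.2.2.1 i))
      simp only [mx, map_sub, map_one, MvPolynomial.aeval_X] at this
      exact sub_eq_zero.1 this
    · have := key (2 * (∑ l, MvPolynomial.C (n l : ℝ)) * (1 - mx i j) -
          ∑ l, if l = i ∨ l = j then 0 else
            MvPolynomial.C (n l : ℝ) * (mx i l ^ 2 + mx j l ^ 2 - mx i j ^ 2) * (my i l * my j l))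
          (fun a b hab => by
        have h4 := hab.2.2.2 i j hij
        simp only [mx, my, map_sub, map_mul, map_one, map_sum, map_ofNat, map_add, map_pow,
          apply_ite (MvPolynomial.eval (φ (a, b))), map_zero, MvPolynomial.eval_X,
          MvPolynomial.eval_C]
        exact sub_eq_zero.2 h4)
      simp only [mx, my, map_sub, map_mul, map_one, map_sum, map_ofNat, map_add, map_pow,
          apply_ite (MvPolynomial.aeval X), map_zero, MvPolynomial.aeval_X,
          MvPolynomial.aeval_C] at this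
      exact sub_eq_zero.1 this
  -- a transcendental unknown x i j with i ≠ j
  have hx0 : ∀ i j, x i j ≠ 0 := fun i j => left_ne_zero_of_mul_eq_one (hS.2.1 i j)
  have hyx : ∀ i j, y i j = (x i j)⁻¹ := fun i j => eq_inv_of_mul_eq_one_right (hS.2.1 i j)
  obtain ⟨i₀, j₀, hij₀, ht⟩ : ∃ i j : Fin 4, i ≠ j ∧ Transcendental ℝ (x i j) := by
    have h1 : ∃ i j : Fin 4, Transcendental ℝ (x i j) := by
      rcases i1 with ⟨i, j⟩ | ⟨i, j⟩
      · exact ⟨i, j, hi1⟩
      · refine ⟨i, j, fun hal => hi1 ?_⟩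
        have h2 : IsAlgebraic ℝ (x i j)⁻¹ := hal.inv
        rw [← hyx] at h2
        exact h2
    obtain ⟨i, j, h⟩ := h1
    refine ⟨i, j, ?_, h⟩
    rintro rfl
    rw [hS.2.2.1 i] at h
    exact h isAlgebraic_one
  -- pass to the algebraic closure and take a place
  let Ω := AlgebraicClosure L
  have htr : Transcendental ℝ (algebraMap L Ω (x i₀ j₀)) := by
    intro hal
    exact ht ((isAlgebraic_algebraMap_iff (algebraMap L Ω).injective).1 hal)
  obtain ⟨M, _, _, L', _, _, O, D, g, z, hD, hz, hz0⟩ := exists_place (F := ℝ) (Ω := Ω)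
    (fun q : Fin 4 × Fin 4 => algebraMap L Ω (x q.1 q.2)) (i₀, j₀) htr
  have hCL' : CharZero L' := charZero_of_injective_algebraMap (algebraMap M L').injective
  set x' : Fin 4 → Fin 4 → L' := fun i j => z (i, j) with hx'
  have hgx : ∀ i j, g (x' i j) = algebraMap L Ω (x i j) := fun i j => hz (i, j)
  have hgn : ∀ k : ℕ, g (k : L') = algebraMap L Ω (algebraMap ℝ L (k : ℝ)) := by
    intro k
    rw [map_natCast, map_natCast, map_natCast]
  have hS' : Sys (fun i => (n i : L')) x' (fun i j => (x' i j)⁻¹) := by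
    refine Sys.of_map g g.injective ?_
    have h1 := hS.map (algebraMap L Ω)
    have e1 : (fun i j => g (x' i j)) = fun i j => algebraMap L Ω (x i j) := by
      funext i j; exact hgx i j
    have e2 : (fun i j => g ((x' i j)⁻¹)) = fun i j => algebraMap L Ω (y i j) := by
      funext i j
      rw [map_inv₀, hgx, hyx, map_inv₀]
    have e3 : (fun i => g ((n i : ℕ) : L')) = fun i => algebraMap L Ω (algebraMap ℝ L (n i : ℝ)) := by
      funext i; exact hgn (n i)
    rw [e1, e2, e3]
    exact h1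
  have hS'' : Sys (fun i => algebraMap M L' ((n i : ℕ) : M)) x' (fun i j => (x' i j)⁻¹) := by
    simp only [map_natCast]
    exact hS'
  have hN : (∑ i, ((n i : ℕ) : M)) ≠ 0 := by
    rw [← Nat.cast_sum, Nat.cast_ne_zero]
    have h1 : n 0 ≤ ∑ i, n i := Finset.single_le_sum (fun _ _ => Nat.zero_le _) (Finset.mem_univ 0)
    have h2 := hn 0
    omega
  have hv := vol (F := M) (fun i => ((n i : ℕ) : M)) hN x' (fun i j => (x' i j)⁻¹) hS'' D
  -- residues
  let J := {q : Fin 4 × Fin 4 // q.1 < q.2}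
  have hsum : ∀ {A : Type} [AddCommMonoid A] (f : Fin 4 → Fin 4 → A),
      ∑ q : J, f q.1.1 q.1.2 = ∑ i, ∑ j ∈ Finset.Ioi i, f i j := by
    intro A _ f
    rw [Finset.sum_sigma' Finset.univ (fun i => Finset.Ioi i) (fun i j => f i j)]
    refine Finset.sum_bij' (fun q _ => ⟨q.1.1, q.1.2⟩) (fun q hq => ⟨(q.1, q.2), ?_⟩) ?_ ?_ ?_ ?_ ?_
    · simpa using hq
    · intro q _; simpa using q.2
    · intro q _; exact Finset.mem_univ _
    · intro q _; rfl
    · intro q _; rfl
    · intro q _; rfl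
  rw [← hsum (fun i j => algebraMap M L' (((n i : ℕ) : M) * ((n j : ℕ) : M)) *
    (D (x' i j) / x' i j))] at hv
  have hx0' : ∀ i j, x' i j ≠ 0 := fun i j => left_ne_zero_of_mul_eq_one (hS'.2.1 i j)
  have hr := log_res O D hD (fun q : J => ((n q.1.1 : ℕ) : M) * ((n q.1.2 : ℕ) : M))
    (fun q : J => x' q.1.1 q.1.2) (fun q => hx0' _ _) hv
  rw [hsum (fun i j => O.ord (x' i j) • (((n i : ℕ) : M) * ((n j : ℕ) : M)))] at hr
  have hr' : ∑ i, ∑ j ∈ Finset.Ioi i, ((n i * n j : ℤ) * O.ord (x' i j)) = 0 := by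
    have h1 : ((∑ i, ∑ j ∈ Finset.Ioi i, ((n i * n j : ℤ) * O.ord (x' i j)) : ℤ) : M) = 0 := by
      rw [← hr]
      push_cast
      refine Finset.sum_congr rfl fun i _ => Finset.sum_congr rfl fun j _ => ?_
      rw [zsmul_eq_mul]
      ring
    exact_mod_cast h1
  refine data_false O hn hS' ?_ ⟨i₀, j₀, hij₀, hz0⟩
  intro a b c d D
  rw [sum_pairs (fun i j => (n i * n j : ℤ) * O.ord (x' i j)) (fun i j => by
    rw [hS'.1 i j, mul_comm (n i : ℤ)]) D] at hr'
  exact hr'

/-- four blocks -/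
theorem four_blocks (n : Fin 4 → ℕ) (hn : ∀ i, 0 < n i) : FinitelyManyEinstein n :=
  finitelyManyEinstein_of (finitelyMany_of_finite n hn (finite_sys4 n hn))

end Pool.Agent.H43.F4
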